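import Pool.Agent.P.MP_045578_al.Final

set_option autoImplicit false

namespace Pool.Agent.Results.MP_045578_al.AllRings

open Pool.Agent.P.MP_045578_al

/-- There is a torsion-free group G such that for every nontrivial ring K (the integers, the
rationals, any field) the group ring K[G] has a unit that is not of the form c g. -/
theorem result :
    ∃ (G : Type) (_ : Group G),
      (∀ g : G, ∀ n : ℕ, 0 < n → g ^ n = 1 → g = 1) ∧
      ∀ (K : Type) [Ring K] [Nontrivial K],
        ∃ u : (MonoidAlgebra K G)ˣ, ∀ (g : G) (c : K),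
          (u : MonoidAlgebra K G) ≠ MonoidAlgebra.single g c := by
  refine ⟨Prom, inferInstance, Prom.torsionFree, ?_⟩
  intro K _ _
  obtain ⟨u, g1, g2, hne, h1, h2⟩ := int_unit2
  refine ⟨Units.map (MonoidAlgebra.mapRingHom Prom (Int.castRingHom K)).toMonoidHom u,
    fun g c h => ?_⟩
  have k1 := congrArg (fun w : MonoidAlgebra K Prom => w.coeff g1) h
  have k2 := congrArg (fun w : MonoidAlgebra K Prom => w.coeff g2) h
  simp only [Units.coe_map, RingHom.toMonoidHom_eq_coe, MonoidHom.coe_coe,
    MonoidAlgebra.coeff_mapRingHom, h1, h2, map_one] at k1 k2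
  by_cases e : g = g1
  · have e2 : g ≠ g2 := fun e' => hne (e.symm.trans e')
    simp [e2] at k2
  · simp [e] at k1

end Pool.Agent.Results.MP_045578_al.AllRings
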